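import Mathlib
set_option autoImplicit false
set_option linter.unusedSectionVars false

namespace Pool.Agent.Results.MP_f91ac8_co.NotRegular

/-- The infinite word `u` is `d`-automatic: some finite automaton with output (states `Fin m`,
initial state `q₀`, transitions `δ`, output map `out`) reads the base-`d` expansion of `n`, most
significant digit first, and outputs the letter `u n`. -/
def IsAutomatic {A : Type} (d : ℕ) (u : ℕ → A) : Prop :=
  ∃ (m : ℕ) (q₀ : Fin m) (δ : Fin m → ℕ → Fin m) (out : Fin m → A),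
    ∀ n : ℕ, u n = out ((Nat.digits d n).reverse.foldl δ q₀)

/-- The initial block `u₁ u₂ ⋯ uₙ` of the infinite word `u = u₁ u₂ u₃ ⋯`. -/
def initialBlock {A : Type} (u : ℕ → A) (n : ℕ) : List A :=
  (List.range n).map (fun i => u (i + 1))

/-- `PPL_u(n)`: the least `k` such that `u₁ ⋯ uₙ` is a product of `k` nonempty palindromes. -/
noncomputable def PPL {A : Type} (u : ℕ → A) (n : ℕ) : ℕ :=
  sInf {k | ∃ L : List (List A), L.length = k ∧ (∀ p ∈ L, p ≠ [] ∧ p.reverse = p) ∧
    L.flatten = initialBlock u n}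

/-- `f` is `d`-regular: the `ℤ`-module spanned by its `d`-kernel is finitely generated. -/
def IsRegular (d : ℕ) (f : ℕ → ℤ) : Prop :=
  (Submodule.span ℤ {g : ℕ → ℤ | ∃ e r : ℕ, r < d ^ e ∧ g = fun n => f (d ^ e * n + r)}).FG

/-- the block from position `m+1` to position `n` is a palindrome -/
def Pal {A : Type} (u : ℕ → A) (m n : ℕ) : Prop :=
  ∀ x, m < x → x ≤ n → u x = u (m + n + 1 - x)

section general
variable {A : Type} (u : ℕ → A)

def seg (m n : ℕ) : List A := (List.range (n - m)).map (fun i => u (m + i + 1))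

lemma block_append {m n : ℕ} (h : m ≤ n) : initialBlock u n = initialBlock u m ++ seg u m n := by
  unfold initialBlock seg
  obtain ⟨k, rfl⟩ := Nat.exists_eq_add_of_le h
  rw [Nat.add_sub_cancel_left, List.range_add, List.map_append, List.map_map]
  rfl

lemma block_length (n : ℕ) : (initialBlock u n).length = n := by
  unfold initialBlock; simp

lemma seg_length (m n : ℕ) : (seg u m n).length = n - m := by
  unfold seg; simp

lemma seg_pal {m n : ℕ} (h : m ≤ n) : (seg u m n).reverse = seg u m n ↔ Pal u m n := by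
  constructor
  · intro hr x h1 h2
    have hx : x - m - 1 < n - m := by omega
    have e : (seg u m n).reverse[x - m - 1]'(by simpa [seg_length] using hx)
        = (seg u m n)[x - m - 1]'(by simpa [seg_length] using hx) := by
      simp only [hr]
    rw [List.getElem_reverse] at e
    simp only [seg, List.length_map, List.length_range, List.getElem_map, List.getElem_range] at e
    rw [show m + (n - m - 1 - (x - m - 1)) + 1 = m + n + 1 - x by omega,
      show m + (x - m - 1) + 1 = x by omega] at e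
    exact e.symm
  · intro hp
    apply List.ext_getElem
    · simp
    · intro i h1 h2
      rw [seg_length] at h2
      rw [List.getElem_reverse]
      simp only [seg, List.length_map, List.length_range, List.getElem_map, List.getElem_range]
      have := hp (m + i + 1) (by omega) (by omega)
      rw [this]
      congr 1; omega

/-- decompositions from a potential function, upper bound -/
lemma exists_decomp (v : ℕ → ℕ) (h0 : v 0 = 0)
    (ub : ∀ n, 0 < n → ∃ m < n, Pal u m n ∧ v n = v m + 1) (n : ℕ) :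
    ∃ L : List (List A), L.length = v n ∧ (∀ p ∈ L, p ≠ [] ∧ p.reverse = p) ∧
      L.flatten = initialBlock u n := by
  induction n using Nat.strong_induction_on with
  | _ n ih =>
    rcases Nat.eq_zero_or_pos n with rfl | hn
    · exact ⟨[], by simp [h0], by simp, by simp [initialBlock]⟩
    · obtain ⟨m, hm, hp, hv⟩ := ub n hn
      obtain ⟨L, hL1, hL2, hL3⟩ := ih m hm
      refine ⟨L ++ [seg u m n], by simp [hL1, hv], ?_, ?_⟩
      · intro p hpm
        rw [List.mem_append, List.mem_singleton] at hpm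
        rcases hpm with h | rfl
        · exact hL2 p h
        · refine ⟨?_, (seg_pal u hm.le).mpr hp⟩
          intro hnil
          have := seg_length u m n
          rw [hnil] at this
          simp at this
          omega
      · rw [List.flatten_append, hL3, block_append u hm.le]
        simp

/-- lower bound -/
lemma decomp_ge (v : ℕ → ℕ) (h0 : v 0 = 0)
    (lb : ∀ m n, m < n → Pal u m n → v n ≤ v m + 1) :
    ∀ (L : List (List A)) (n : ℕ), (∀ p ∈ L, p ≠ [] ∧ p.reverse = p) →
      L.flatten = initialBlock u n → v n ≤ L.length := by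
  intro L
  induction L using List.reverseRecOn with
  | nil =>
    intro n _ hf
    have : n = 0 := by
      have := congrArg List.length hf
      rw [block_length] at this
      simpa using this.symm
    simp [this, h0]
  | append_singleton L p ih =>
    intro n hL hf
    rw [List.flatten_append] at hf
    simp only [List.flatten_cons, List.flatten_nil, List.append_nil] at hf
    have hlen := congrArg List.length hf
    rw [List.length_append, block_length] at hlen
    have hpL := hL p (by simp)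
    have hp0 : 0 < p.length := List.length_pos_iff.mpr hpL.1
    have hm : L.flatten.length < n := by omega
    have happ := block_append u hm.le
    rw [← hf] at happ
    have hinj := List.append_inj happ (by rw [block_length])
    have h1 := ih L.flatten.length (fun q hq => hL q (by simp [hq])) hinj.1
    have h2 : Pal u L.flatten.length n := by
      rw [← seg_pal u hm.le, ← hinj.2]; exact hpL.2
    have h3 := lb _ _ hm h2
    simp only [List.length_append, List.length_singleton]
    omega

lemma PPL_eq (v : ℕ → ℕ) (h0 : v 0 = 0)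
    (lb : ∀ m n, m < n → Pal u m n → v n ≤ v m + 1)
    (ub : ∀ n, 0 < n → ∃ m < n, Pal u m n ∧ v n = v m + 1) (n : ℕ) : PPL u n = v n := by
  unfold PPL
  apply le_antisymm
  · exact Nat.sInf_le (exists_decomp u v h0 ub n)
  · have hne : {k | ∃ L : List (List A), L.length = k ∧ (∀ p ∈ L, p ≠ [] ∧ p.reverse = p) ∧
        L.flatten = initialBlock u n}.Nonempty := ⟨_, exists_decomp u v h0 ub n⟩
    obtain ⟨L, hL1, hL2, hL3⟩ := Nat.sInf_mem hne
    rw [← hL1]
    exact decomp_ge u v h0 lb L n hL2 hL3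

end general

/-! ### the positions of the nonzero letters -/

/-- position of the `k`-th nonzero letter, `k ≥ 1` -/
def p (d k : ℕ) : ℕ := (d + 1) * d ^ k + (if k % 2 = 0 then 1 else 0)
/-- left end of the `k`-th gap -/
def pp (d k : ℕ) : ℕ := if k = 0 then 0 else p d k
/-- the exceptional position in the `k`-th gap -/
def z (d k : ℕ) : ℕ := if k % 2 = 0 then 2 * d ^ (k + 1) + k - 2 * d else 2 * d ^ (k + 1) + 2 * d - k

section arith
variable {d : ℕ} (hd : 2 ≤ d)
include hd

lemma lt_dpow (k : ℕ) : k < d ^ k := Nat.lt_pow_self (by omega)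

lemma pow_succ_ge (k : ℕ) : 2 * d ^ k ≤ d ^ (k + 1) := by
  rw [pow_succ, mul_comm]; exact Nat.mul_le_mul_left _ hd

lemma z_even {k : ℕ} (hk : k % 2 = 0) : z d k + 2 * d = 2 * d ^ (k + 1) + k := by
  unfold z
  rw [if_pos hk]
  have : d ^ 1 ≤ d ^ (k + 1) := Nat.pow_le_pow_right (by omega) (by omega)
  rw [pow_one] at this
  omega

lemma z_odd {k : ℕ} (hk : k % 2 = 1) : z d k + k = 2 * d ^ (k + 1) + 2 * d := by
  unfold z
  rw [if_neg (by omega)]
  have : k + 1 < d ^ (k + 1) := lt_dpow hd (k + 1)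
  omega

lemma p_even {k : ℕ} (hk : k % 2 = 0) : p d k = (d + 1) * d ^ k + 1 := by
  unfold p; rw [if_pos hk]

lemma p_odd {k : ℕ} (hk : k % 2 = 1) : p d k = (d + 1) * d ^ k := by
  unfold p; rw [if_neg (by omega)]; rfl

lemma z_rec (k : ℕ) : z d (k + 1) + z d k + 1 = 2 * p d (k + 1) := by
  have hp : (d + 1) * d ^ (k + 1) = d ^ (k + 2) + d ^ (k + 1) := by ring
  rcases Nat.mod_two_eq_zero_or_one k with hk | hk
  · have h1 := z_even hd hk
    have h2 := z_odd hd (k := k + 1) (by omega)
    rw [p_odd hd (k := k + 1) (by omega), hp]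
    have e : k + 1 + 1 = k + 2 := rfl
    rw [e] at h2
    omega
  · have h1 := z_odd hd hk
    have h2 := z_even hd (k := k + 1) (by omega)
    rw [p_even hd (k := k + 1) (by omega), hp]
    have e : k + 1 + 1 = k + 2 := rfl
    rw [e] at h2
    omega

lemma pp_le_z (k : ℕ) : pp d k ≤ z d k := by
  unfold pp
  rcases Nat.eq_zero_or_pos k with rfl | hk
  · simp
  rw [if_neg (by omega)]
  have h0 := lt_dpow hd k
  have hs : d ^ (k + 1) = d * d ^ k := by rw [pow_succ, mul_comm]
  rcases Nat.mod_two_eq_zero_or_one k with hk2 | hk2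
  · have h1 := z_even hd hk2
    rw [p_even hd hk2]
    rw [hs] at h1
    have h2 : d ^ 2 ≤ d ^ k := Nat.pow_le_pow_right (by omega) (by omega)
    nlinarith
  · have h1 := z_odd hd hk2
    rw [p_odd hd hk2]
    rw [hs] at h1
    nlinarith

lemma z_lt_pp (k : ℕ) : z d k < pp d (k + 1) := by
  unfold pp
  rw [if_neg (by omega)]
  have h0 := lt_dpow hd (k + 1)
  rcases Nat.mod_two_eq_zero_or_one k with hk2 | hk2
  · have h1 := z_even hd hk2
    rw [p_odd hd (k := k + 1) (by omega)]
    nlinarith
  · have h1 := z_odd hd hk2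
    rw [p_even hd (k := k + 1) (by omega)]
    have h2 : d ^ 2 ≤ d ^ (k + 1) := Nat.pow_le_pow_right (by omega) (by omega)
    nlinarith

lemma pp_strictMono : StrictMono (pp d) :=
  strictMono_nat_of_lt_succ (fun k => lt_of_le_of_lt (pp_le_z hd k) (z_lt_pp hd k))

lemma p_eq_pp {k : ℕ} (hk : 1 ≤ k) : p d k = pp d k := by
  unfold pp; rw [if_neg (by omega)]

lemma p_gap {J : ℕ} (hJ : 2 ≤ J) : 2 * p d (J - 1) < p d J + p d 1 := by
  obtain ⟨j, rfl⟩ : ∃ j, J = j + 1 := ⟨J - 1, by omega⟩
  rw [Nat.add_sub_cancel]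
  have h1 : p d j ≤ (d + 1) * d ^ j + 1 := by unfold p; split_ifs <;> omega
  have h2 : (d + 1) * d ^ (j + 1) ≤ p d (j + 1) := by unfold p; omega
  have h3 : p d 1 = (d + 1) * d := by rw [p_odd hd (by norm_num), pow_one]
  have h4 := pow_succ_ge hd j
  rw [h3]
  nlinarith

end arith

section level
variable {d : ℕ} (hd : 2 ≤ d)
include hd

lemma exists_level (n : ℕ) : ∃ k, n < pp d (k + 1) :=
  ⟨n, lt_of_lt_of_le (Nat.lt_succ_self n) ((pp_strictMono hd).le_apply)⟩

/-- the number of nonzero letters among `u₁ ⋯ uₙ` -/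
def level (n : ℕ) : ℕ := Nat.find (exists_level hd n)

lemma lt_level (n : ℕ) : n < pp d (level hd n + 1) := Nat.find_spec (exists_level hd n)

lemma level_le (n : ℕ) : pp d (level hd n) ≤ n := by
  rcases Nat.eq_zero_or_pos (level hd n) with h | h
  · rw [h]; unfold pp; simp
  · have := Nat.find_min (exists_level hd n) (m := level hd n - 1)
      (by unfold level at h ⊢; omega)
    rw [not_lt, Nat.sub_add_cancel h] at this
    exact this

lemma level_unique {n k : ℕ} (h1 : pp d k ≤ n) (h2 : n < pp d (k + 1)) : level hd n = k := by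
  apply le_antisymm
  · exact Nat.find_min' _ h2
  · by_contra hcon
    push Not at hcon
    have h3 := lt_level hd n
    have h4 := (pp_strictMono hd).monotone (show level hd n + 1 ≤ k by omega)
    omega

lemma level_mono {m n : ℕ} (h : m ≤ n) : level hd m ≤ level hd n := by
  by_contra hcon
  push Not at hcon
  have h1 := lt_level hd n
  have h2 := level_le hd m
  have h3 := (pp_strictMono hd).monotone (show level hd n + 1 ≤ level hd m by omega)
  omega

/-- the value of the palindromic length -/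
def v (n : ℕ) : ℕ := level hd n + (if n = z d (level hd n) then 0 else 1)

lemma level_z (k : ℕ) : level hd (z d k) = k := level_unique hd (pp_le_z hd k) (z_lt_pp hd k)

lemma v_z (k : ℕ) : v hd (z d k) = k := by
  unfold v; rw [level_z, if_pos rfl]; rfl

variable (u : ℕ → Fin 3) (U1 : ∀ x, u x ≠ 0 → ∃ k, 1 ≤ k ∧ x = p d k)
  (U2 : ∀ k, 1 ≤ k → u (p d k) = if k % 2 = 0 then 2 else 1)

include U1 U2

lemma reflect {m n k : ℕ} (hpal : Pal u m n) (hk : 1 ≤ k) (h1 : m < p d k) (h2 : p d k ≤ n) :
    ∃ l, 1 ≤ l ∧ m + n + 1 = p d k + p d l ∧ l % 2 = k % 2 := by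
  have h3 := hpal _ h1 h2
  have h4 : u (p d k) ≠ 0 := by rw [U2 k hk]; split_ifs <;> decide
  obtain ⟨l, hl, hl2⟩ := U1 (m + n + 1 - p d k) (by rw [← h3]; exact h4)
  refine ⟨l, hl, by omega, ?_⟩
  rw [hl2, U2 k hk, U2 l hl] at h3
  rcases Nat.mod_two_eq_zero_or_one l with a | a <;> rcases Nat.mod_two_eq_zero_or_one k with b | b
  · rw [a, b]
  · rw [a, b] at h3; exact absurd h3 (by decide)
  · rw [a, b] at h3; exact absurd h3 (by decide)
  · rw [a, b]

lemma no_two {m n : ℕ} (hpal : Pal u m n) (hJ : 2 ≤ level hd n)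
    (hm : m < p d (level hd n - 1)) : False := by
  obtain ⟨J, hJe⟩ : ∃ J, J = level hd n := ⟨_, rfl⟩
  rw [← hJe] at hJ hm
  have hmono := pp_strictMono hd
  have hJn : p d J ≤ n := by rw [p_eq_pp hd (by omega), hJe]; exact level_le hd n
  have hlt : p d (J - 1) < p d J := by
    rw [p_eq_pp hd (by omega), p_eq_pp hd (by omega)]; exact hmono (by omega)
  obtain ⟨a, ha, ha1, ha2⟩ := reflect hd u U1 U2 hpal (show 1 ≤ J by omega) (by omega) hJn
  obtain ⟨b, hb, hb1, hb2⟩ := reflect hd u U1 U2 hpal (show 1 ≤ J - 1 by omega) hm (by omega)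
  have hbn : pp d b < pp d (J + 1) := by
    rw [← p_eq_pp hd hb]
    have := lt_level hd n
    rw [← hJe] at this
    omega
  have hbJ : b < J + 1 := hmono.lt_iff_lt.mp hbn
  have hbJ' : b ≤ J - 1 := by omega
  have hpb : p d b ≤ p d (J - 1) := by
    rw [p_eq_pp hd hb, p_eq_pp hd (by omega)]; exact hmono.monotone hbJ'
  have hpa : p d 1 ≤ p d a := by
    rw [p_eq_pp hd ha, p_eq_pp hd (by omega)]; exact hmono.monotone ha
  have := p_gap hd hJ
  omega

lemma center {m n k : ℕ} (hpal : Pal u m n) (hk : 1 ≤ k) (hm : level hd m = k - 1)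
    (hn : level hd n = k) : m + n + 1 = 2 * p d k := by
  have hmono := pp_strictMono hd
  have h1 : p d k ≤ n := by rw [p_eq_pp hd hk, ← hn]; exact level_le hd n
  have h2 : m < p d k := by
    have := lt_level hd m
    rw [hm, Nat.sub_add_cancel hk] at this
    rw [p_eq_pp hd hk]; exact this
  obtain ⟨l, hl, hl1, _⟩ := reflect hd u U1 U2 hpal hk h2 h1
  have h3 : pp d l < pp d (k + 1) := by
    have := lt_level hd n
    rw [hn] at this
    rw [← p_eq_pp hd hl]; omega
  have h4 : pp d (k - 1) < pp d l := by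
    have := level_le hd m
    rw [hm] at this
    rw [← p_eq_pp hd hl]; omega
  have h5 := hmono.lt_iff_lt.mp h3
  have h6 := hmono.lt_iff_lt.mp h4
  have : l = k := by omega
  rw [this] at hl1
  omega

omit U2 in
lemma pal_zero {m n : ℕ} (h : level hd m = level hd n) : Pal u m n := by
  have hmono := pp_strictMono hd
  have key : ∀ x, m < x → x ≤ n → u x = 0 := by
    intro x h1 h2
    by_contra hcon
    obtain ⟨k, hk, hx⟩ := U1 x hcon
    rw [p_eq_pp hd hk] at hx
    have a := level_le hd m
    have b := lt_level hd n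
    rw [← h] at b
    have c := hmono.lt_iff_lt.mp (show pp d (level hd m) < pp d k by omega)
    have e := hmono.lt_iff_lt.mp (show pp d k < pp d (level hd m + 1) by omega)
    omega
  intro x h1 h2
  rw [key x h1 h2, key _ (by omega) (by omega)]

omit U2 in
lemma pal_one {m n k : ℕ} (hk : 1 ≤ k) (hm : level hd m = k - 1) (hn : level hd n = k)
    (hc : m + n + 1 = 2 * p d k) : Pal u m n := by
  have hmono := pp_strictMono hd
  have key : ∀ x, m < x → x ≤ n → x ≠ p d k → u x = 0 := by
    intro x h1 h2 h3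
    by_contra hcon
    obtain ⟨l, hl, hx⟩ := U1 x hcon
    rw [p_eq_pp hd hl] at hx
    have a := level_le hd m
    have b := lt_level hd n
    rw [hm] at a
    rw [hn] at b
    have c := hmono.lt_iff_lt.mp (show pp d (k - 1) < pp d l by omega)
    have e := hmono.lt_iff_lt.mp (show pp d l < pp d (k + 1) by omega)
    have : l = k := by omega
    rw [this, ← p_eq_pp hd hk] at hx
    exact h3 hx
  intro x h1 h2
  by_cases hx : x = p d k
  · congr 1; omega
  · rw [key x h1 h2 hx, key _ (by omega) (by omega) (by omega)]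

lemma lower : ∀ m n, m < n → Pal u m n → v hd n ≤ v hd m + 1 := by
  intro m n hmn hpal
  have hle := level_mono hd hmn.le
  rcases Nat.lt_or_ge (level hd m + 1) (level hd n) with h2 | h2
  · exfalso
    apply no_two hd u U1 U2 hpal (by omega)
    rw [p_eq_pp hd (by omega)]
    have a := lt_level hd m
    have b := (pp_strictMono hd).monotone (show level hd m + 1 ≤ level hd n - 1 by omega)
    omega
  · rcases Nat.eq_or_lt_of_le hle with h3 | h3
    · unfold v
      rw [← h3]
      split_ifs <;> omega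
    · have h4 : level hd n = level hd m + 1 := by omega
      have hc := center hd u U1 U2 hpal (k := level hd n) (by omega) (by omega) rfl
      have hz := z_rec hd (level hd m)
      unfold v
      rw [h4] at hc ⊢
      by_cases hm : m = z d (level hd m)
      · rw [if_pos hm, if_pos (by omega)]
      · rw [if_neg hm, if_neg (by omega)]

omit U2 in
lemma upper : ∀ n, 0 < n → ∃ m < n, Pal u m n ∧ v hd n = v hd m + 1 := by
  intro n hn
  obtain ⟨b, hb⟩ : ∃ b, b = level hd n := ⟨_, rfl⟩
  have hz0 : z d 0 = 0 := by unfold z; simp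
  have hple := level_le hd n
  have hlt := lt_level hd n
  rw [← hb] at hple hlt
  by_cases hnz : n = z d b
  · -- the exceptional position
    have hb1 : 1 ≤ b := by
      by_contra hcon
      have : b = 0 := by omega
      rw [this, hz0] at hnz; omega
    obtain ⟨c, rfl⟩ : ∃ c, b = c + 1 := ⟨b - 1, by omega⟩
    have hr := z_rec hd c
    have hlc := level_z hd c
    have h1 := z_lt_pp hd c
    refine ⟨z d c, ?_, ?_, ?_⟩
    · omega
    · exact pal_one hd u U1 (k := c + 1) (by omega) (by rw [hlc]; rfl) hb.symm (by omega)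
    · rw [hnz, v_z, v_z]
  · have hv : v hd n = b + 1 := by
      unfold v; rw [← hb, if_neg hnz]
    rcases Nat.lt_or_ge (z d b) n with h1 | h1
    · refine ⟨z d b, h1, ?_, ?_⟩
      · exact pal_zero hd u U1 (by rw [level_z, hb])
      · rw [hv, v_z]
    · have h2 : n < z d b := by omega
      have hb1 : 1 ≤ b := by
        by_contra hcon
        have : b = 0 := by omega
        rw [this, hz0] at h2; omega
      obtain ⟨c, rfl⟩ : ∃ c, b = c + 1 := ⟨b - 1, by omega⟩
      have hr := z_rec hd c
      have h3 := pp_le_z hd c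
      rw [← p_eq_pp hd hb1] at hple
      have hlm : level hd (2 * p d (c + 1) - 1 - n) = c := by
        apply level_unique hd
        · omega
        · rw [← p_eq_pp hd hb1]; omega
      refine ⟨2 * p d (c + 1) - 1 - n, by omega, ?_, ?_⟩
      · exact pal_one hd u U1 (k := c + 1) hb1 (by rw [hlm]; rfl) hb.symm (by omega)
      · rw [hv]
        unfold v
        rw [hlm, if_neg (by omega)]

lemma PPL_formula (n : ℕ) : PPL u n = v hd n := by
  apply PPL_eq u (v hd)
  · have : z d 0 = 0 := by unfold z; simp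
    have h := v_z hd 0
    rw [this] at h; exact h
  · exact lower hd u U1 U2
  · exact upper hd u U1

end level

/-! ### the automaton -/

/-- transitions of the automaton (state 6 is a sink) -/
def δ (q : Fin 7) (a : ℕ) : Fin 7 :=
  if q = 0 then (if a = 1 then 1 else 6)
  else if q = 1 then (if a = 1 then 2 else 6)
  else if q = 2 then (if a = 0 then 3 else 6)
  else if q = 3 then (if a = 0 then 4 else if a = 1 then 5 else 6)
  else if q = 4 then (if a = 0 then 3 else 6)
  else 6

/-- output map -/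
def out (q : Fin 7) : Fin 3 := if q = 3 then 1 else if q = 5 then 2 else 0

/-- state reached on the base-`d` expansion of `n` -/
def st (d n : ℕ) : Fin 7 := (Nat.digits d n).reverse.foldl δ 0

/-- the word -/
def word (d n : ℕ) : Fin 3 := out (st d n)

lemma st_zero (d : ℕ) : st d 0 = 0 := by
  unfold st; simp

lemma st_rec {d : ℕ} (hd : 2 ≤ d) {n : ℕ} (hn : 0 < n) : st d n = δ (st d (n / d)) (n % d) := by
  unfold st
  rw [Nat.digits_def' (by omega) hn, List.reverse_cons, List.foldl_append]
  rfl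

lemma st_mul_add {d : ℕ} (hd : 2 ≤ d) (m r : ℕ) (hr : r < d) (h : 0 < d * m + r) :
    st d (d * m + r) = δ (st d m) r := by
  rw [st_rec hd h]
  have h1 : (d * m + r) / d = m := by
    rw [Nat.mul_add_div (by omega), Nat.div_eq_of_lt hr, add_zero]
  have h2 : (d * m + r) % d = r := by
    rw [Nat.mul_add_mod]; exact Nat.mod_eq_of_lt hr
  rw [h1, h2]

lemma δ_ne0 (q : Fin 7) (a : ℕ) : δ q a ≠ 0 := by
  unfold δ; split_ifs <;> decide

lemma δ_eq1 {q : Fin 7} {a : ℕ} (h : δ q a = 1) : q = 0 ∧ a = 1 := by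
  unfold δ at h; split_ifs at h <;> first | exact absurd h (by decide) | exact ⟨by assumption, by assumption⟩

lemma δ_eq2 {q : Fin 7} {a : ℕ} (h : δ q a = 2) : q = 1 ∧ a = 1 := by
  unfold δ at h; split_ifs at h <;> first | exact absurd h (by decide) | exact ⟨by assumption, by assumption⟩

lemma δ_eq3 {q : Fin 7} {a : ℕ} (h : δ q a = 3) : (q = 2 ∨ q = 4) ∧ a = 0 := by
  unfold δ at h; split_ifs at h <;> first | exact absurd h (by decide) | exact ⟨Or.inl (by assumption), by assumption⟩ | exact ⟨Or.inr (by assumption), by assumption⟩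

lemma δ_eq4 {q : Fin 7} {a : ℕ} (h : δ q a = 4) : q = 3 ∧ a = 0 := by
  unfold δ at h; split_ifs at h <;> first | exact absurd h (by decide) | exact ⟨by assumption, by assumption⟩

lemma δ_eq5 {q : Fin 7} {a : ℕ} (h : δ q a = 5) : q = 3 ∧ a = 1 := by
  unfold δ at h; split_ifs at h <;> first | exact absurd h (by decide) | exact ⟨by assumption, by assumption⟩

lemma st_forward {d : ℕ} (hd : 2 ≤ d) (n : ℕ) :
    (st d n = 0 → n = 0) ∧ (st d n = 1 → n = 1) ∧ (st d n = 2 → n = d + 1) ∧
    (st d n = 3 → ∃ j, n = (d + 1) * d ^ (2 * j + 1)) ∧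
    (st d n = 4 → ∃ j, n = (d + 1) * d ^ (2 * j + 2)) ∧
    (st d n = 5 → ∃ j, n = (d + 1) * d ^ (2 * j + 2) + 1) := by
  induction n using Nat.strong_induction_on with
  | _ n ih =>
    rcases Nat.eq_zero_or_pos n with rfl | hn
    · rw [st_zero]
      refine ⟨fun _ => rfl, ?_, ?_, ?_, ?_, ?_⟩ <;> intro h <;> exact absurd h (by decide)
    · rw [st_rec hd hn]
      obtain ⟨i0, i1, i2, i3, i4, i5⟩ := ih (n / d) (Nat.div_lt_self hn (by omega))
      have e := Nat.div_add_mod n d
      refine ⟨fun h => absurd h (δ_ne0 _ _), ?_, ?_, ?_, ?_, ?_⟩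
      · intro h
        obtain ⟨h1, h2⟩ := δ_eq1 h
        rw [i0 h1, h2] at e; omega
      · intro h
        obtain ⟨h1, h2⟩ := δ_eq2 h
        rw [i1 h1, h2] at e; omega
      · intro h
        obtain ⟨h1 | h1, h2⟩ := δ_eq3 h
        · rw [i2 h1, h2] at e
          exact ⟨0, by rw [← e]; ring⟩
        · obtain ⟨j, hj⟩ := i4 h1
          rw [hj, h2] at e
          exact ⟨j + 1, by rw [← e]; ring⟩
      · intro h
        obtain ⟨h1, h2⟩ := δ_eq4 h
        obtain ⟨j, hj⟩ := i3 h1
        rw [hj, h2] at e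
        exact ⟨j, by rw [← e]; ring⟩
      · intro h
        obtain ⟨h1, h2⟩ := δ_eq5 h
        obtain ⟨j, hj⟩ := i3 h1
        rw [hj, h2] at e
        exact ⟨j, by rw [← e]; ring⟩

lemma st_three {d : ℕ} (hd : 2 ≤ d) (j : ℕ) : st d ((d + 1) * d ^ (2 * j + 1)) = 3 ∧
    st d ((d + 1) * d ^ (2 * j + 2)) = 4 := by
  have s1 : st d 1 = 1 := by
    have := st_mul_add hd 0 1 (by omega) (by omega)
    rw [st_zero, mul_zero, zero_add] at this
    rw [this]; decide
  have s2 : st d (d + 1) = 2 := by
    have := st_mul_add hd 1 1 (by omega) (by omega)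
    rw [s1, mul_one] at this
    rw [this]; decide
  have step : ∀ m, 0 < m → st d (m * d) = δ (st d m) 0 := by
    intro m hm
    have := st_mul_add hd m 0 (by omega) (by positivity)
    rw [add_zero, mul_comm] at this
    exact this
  have four : ∀ j, st d ((d + 1) * d ^ (2 * j + 1)) = 3 → st d ((d + 1) * d ^ (2 * j + 2)) = 4 := by
    intro j h
    have := step ((d + 1) * d ^ (2 * j + 1)) (by positivity)
    rw [h] at this
    rw [show (d + 1) * d ^ (2 * j + 2) = (d + 1) * d ^ (2 * j + 1) * d by ring, this]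
    decide
  induction j with
  | zero =>
    have h3 : st d ((d + 1) * d ^ (2 * 0 + 1)) = 3 := by
      have := step (d + 1) (by omega)
      rw [s2] at this
      rw [show (d + 1) * d ^ (2 * 0 + 1) = (d + 1) * d by ring, this]
      decide
    exact ⟨h3, four 0 h3⟩
  | succ j ih =>
    have h3 : st d ((d + 1) * d ^ (2 * (j + 1) + 1)) = 3 := by
      have := step ((d + 1) * d ^ (2 * j + 2)) (by positivity)
      rw [ih.2] at this
      rw [show (d + 1) * d ^ (2 * (j + 1) + 1) = (d + 1) * d ^ (2 * j + 2) * d by ring, this]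
      decide
    exact ⟨h3, four (j + 1) h3⟩

lemma word_ne {d : ℕ} (hd : 2 ≤ d) (x : ℕ) (h : word d x ≠ 0) : ∃ k, 1 ≤ k ∧ x = p d k := by
  obtain ⟨_, _, _, h3, _, h5⟩ := st_forward hd x
  unfold word out at h
  split_ifs at h with a b
  · obtain ⟨j, hj⟩ := h3 a
    exact ⟨2 * j + 1, by omega, by rw [hj, p_odd hd (by omega)]⟩
  · obtain ⟨j, hj⟩ := h5 b
    exact ⟨2 * j + 2, by omega, by rw [hj, p_even hd (by omega)]⟩
  · exact absurd rfl h

lemma word_p {d : ℕ} (hd : 2 ≤ d) (k : ℕ) (hk : 1 ≤ k) :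
    word d (p d k) = if k % 2 = 0 then 2 else 1 := by
  rcases Nat.mod_two_eq_zero_or_one k with h | h
  · obtain ⟨j, rfl⟩ : ∃ j, k = 2 * j + 2 := ⟨k / 2 - 1, by omega⟩
    rw [if_pos h, p_even hd h]
    have h1 := (st_three hd j).1
    have h2 := st_mul_add hd ((d + 1) * d ^ (2 * j + 1)) 1 (by omega) (by positivity)
    rw [h1] at h2
    rw [show (d + 1) * d ^ (2 * j + 2) + 1 = d * ((d + 1) * d ^ (2 * j + 1)) + 1 by ring]
    unfold word
    rw [h2]
    decide
  · obtain ⟨j, rfl⟩ : ∃ j, k = 2 * j + 1 := ⟨k / 2, by omega⟩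
    rw [if_neg (by omega), p_odd hd h]
    unfold word
    rw [(st_three hd j).1]
    decide

lemma word_automatic (d : ℕ) : IsAutomatic d (word d) := ⟨7, 0, δ, out, fun _ => rfl⟩

/-! ### the palindromic length is not regular -/

lemma v_value {d : ℕ} (hd : 2 ≤ d) {s t : ℕ} (hst : s + 2 ≤ t) :
    v hd (2 * d ^ t + 2 * d ^ s) = t - 1 + (if t = 2 * d ^ s + 2 * d + 1 then 0 else 1) := by
  obtain ⟨k, rfl⟩ : ∃ k, t = k + 1 := ⟨t - 1, by omega⟩
  have hpow : d ^ (k + 1) = d * d ^ k := by rw [pow_succ, mul_comm]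
  have hlev : level hd (2 * d ^ (k + 1) + 2 * d ^ s) = k := by
    apply level_unique hd
    · rw [← p_eq_pp hd (by omega)]
      have : p d k ≤ (d + 1) * d ^ k + 1 := by unfold p; split_ifs <;> omega
      have h0 : 0 < d ^ s := by positivity
      have h1 : 0 < d ^ k := by positivity
      rw [hpow]
      nlinarith
    · rw [← p_eq_pp hd (by omega)]
      have h1 : (d + 1) * d ^ (k + 1) ≤ p d (k + 1) := by unfold p; omega
      have h2 : d ^ (s + 2) ≤ d ^ (k + 1) := Nat.pow_le_pow_right (by omega) hst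
      have h3 : 4 * d ^ s ≤ d ^ (s + 2) := by
        rw [pow_add]
        have : 4 ≤ d ^ 2 := by nlinarith
        nlinarith [Nat.zero_le (d ^ s)]
      have h4 : 0 < d ^ s := by positivity
      nlinarith
  unfold v
  rw [hlev, Nat.add_sub_cancel]
  congr 1
  rcases Nat.mod_two_eq_zero_or_one k with hk | hk
  · have hz := z_even hd hk
    by_cases hc : k + 1 = 2 * d ^ s + 2 * d + 1
    · rw [if_pos hc, if_pos (by omega)]
    · rw [if_neg hc, if_neg (by omega)]
  · have hz := z_odd hd hk
    rw [if_neg (by omega), if_neg (by omega)]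

lemma pow_gap {d : ℕ} (hd : 2 ≤ d) {t s : ℕ} (h : t < s) : d ^ t + (s - t) ≤ d ^ s := by
  obtain ⟨c, rfl⟩ : ∃ c, s = t + c := ⟨s - t, by omega⟩
  have h1 := lt_dpow hd c
  have h2 : 0 < d ^ t := by positivity
  rw [pow_add]
  have : d ^ t * (c + 1) ≤ d ^ t * d ^ c := Nat.mul_le_mul_left _ h1
  have e : t + c - t = c := by omega
  rw [e]
  nlinarith

/-- second difference at `d`-power scale -/
def φ (d a : ℕ) : (ℕ → ℤ) →ₗ[ℤ] ℤ :=
  LinearMap.proj (2 * d ^ a) - (2:ℤ) • LinearMap.proj (2 * d ^ (a + 1)) + LinearMap.proj (2 * d ^ (a + 2))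

lemma not_regular {d : ℕ} (hd : 2 ≤ d) (u : ℕ → Fin 3)
    (U1 : ∀ x, u x ≠ 0 → ∃ k, 1 ≤ k ∧ x = p d k)
    (U2 : ∀ k, 1 ≤ k → u (p d k) = if k % 2 = 0 then 2 else 1) :
    ¬ IsRegular d (fun n => (PPL u n : ℤ)) := by
  intro hreg
  unfold IsRegular at hreg
  -- kernel elements
  obtain ⟨g, hg⟩ : ∃ g : ℕ → (ℕ → ℤ), g = fun s m => (PPL u (d ^ (s + 2) * m + 2 * d ^ s) : ℤ) :=
    ⟨_, rfl⟩
  have hval : ∀ s l, g s (2 * d ^ l) = (s : ℤ) + l + 1 +
      (if s + 2 + l = 2 * d ^ s + 2 * d + 1 then 0 else 1) := by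
    intro s l
    rw [hg]
    dsimp only
    rw [show d ^ (s + 2) * (2 * d ^ l) + 2 * d ^ s = 2 * d ^ (s + 2 + l) + 2 * d ^ s by ring,
      PPL_formula hd u U1 U2, v_value hd (by omega)]
    rw [show s + 2 + l - 1 = s + l + 1 by omega]
    split_ifs <;> push_cast <;> ring
  have hle : Submodule.span ℤ (Set.range g) ≤
      Submodule.span ℤ {g : ℕ → ℤ | ∃ e r : ℕ, r < d ^ e ∧
        g = fun n => ((PPL u (d ^ e * n + r) : ℕ) : ℤ)} := by
    apply Submodule.span_mono
    rintro _ ⟨s, rfl⟩
    refine ⟨s + 2, 2 * d ^ s, ?_, by rw [hg]⟩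
    have h4 : 0 < d ^ s := by positivity
    have h5 : 4 ≤ d ^ 2 := by nlinarith
    rw [pow_add]
    nlinarith
  have hnoeth := isNoetherian_of_fg_of_noetherian _ hreg
  have hfg := isNoetherian_submodule.mp hnoeth _ hle
  rw [Submodule.fg_span_iff_fg_span_finset_subset] at hfg
  obtain ⟨S, hS1, hS2⟩ := hfg
  have hS3 : ∀ x ∈ S, ∃ t, g t = x := fun x hx => hS1 hx
  choose! idx hidx using hS3
  obtain ⟨s, hs⟩ : ∃ s, s = S.sup idx + 1 := ⟨_, rfl⟩
  have hidx2 : ∀ x ∈ S, idx x < s := by
    intro x hx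
    have : idx x ≤ S.sup idx := Finset.le_sup hx
    omega
  have hls := lt_dpow hd s
  obtain ⟨a, ha⟩ : ∃ a, a = 2 * d ^ s + 2 * d + 1 - (s + 2) := ⟨_, rfl⟩
  have ha2 : s + 2 + a = 2 * d ^ s + 2 * d + 1 := by omega
  have hker : ∀ x ∈ S, φ d a x = 0 := by
    intro x hx
    have h1 := hidx2 x hx
    rw [← hidx x hx]
    obtain ⟨t, ht⟩ : ∃ t, t = idx x := ⟨_, rfl⟩
    rw [← ht] at h1 ⊢
    have h2 := pow_gap hd h1
    unfold φ
    simp only [LinearMap.add_apply, LinearMap.sub_apply, LinearMap.smul_apply,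
      LinearMap.proj_apply, hval, smul_eq_mul]
    rw [if_neg (by omega), if_neg (by omega), if_neg (by omega)]
    push_cast
    ring
  have hspan : Submodule.span ℤ (S : Set (ℕ → ℤ)) ≤ LinearMap.ker (φ d a) := by
    rw [Submodule.span_le]
    intro x hx
    exact LinearMap.mem_ker.mpr (hker x hx)
  have hmem : g s ∈ Submodule.span ℤ (Set.range g) := Submodule.subset_span ⟨s, rfl⟩
  rw [hS2] at hmem
  have h0 := LinearMap.mem_ker.mp (hspan hmem)
  unfold φ at h0
  simp only [LinearMap.add_apply, LinearMap.sub_apply, LinearMap.smul_apply,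
    LinearMap.proj_apply, hval, smul_eq_mul] at h0
  rw [if_pos ha2, if_neg (by omega), if_neg (by omega)] at h0
  push_cast at h0
  linarith

/-- For every base `d ≥ 2` there is a `d`-automatic ternary word whose prefix palindromic length
is not `d`-regular. -/
theorem result : ∀ d : ℕ, 2 ≤ d →
    ∃ u : ℕ → Fin 3, IsAutomatic d u ∧ ¬ IsRegular d (fun n => (PPL u n : ℤ)) :=
  fun d hd => ⟨word d, word_automatic d, not_regular hd (word d) (word_ne hd) (word_p hd)⟩

end Pool.Agent.Results.MP_f91ac8_co.NotRegular
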